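import Pool.Agent.Lib.Hyp.Rat.FamComp20

set_option autoImplicit false

namespace Pool.Agent.Results.MP_47150b_an.LocallyHyperconvex

/-- Every connected component `Ω` of the set of expanding maps, in the space of monic centred
polynomials of degree `n ≥ 2` and in the space of rational maps of degree `d ≥ 2`, is a domain of
holomorphy and is locally hyperconvex, in the strong sense that the pull-back of `Ω` under every
holomorphic map, to every hyperconvex set which is relatively compact in the domain of the map, is
hyperconvex. For rational maps `ExpandingRat d` is the cone over the expanding locus of `Rat_d`: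
its components are domains of holomorphy in `ℂ ^ (2 * d + 2)` and their images in projective space
are Stein manifolds. -/
theorem result :
    (∀ n : ℕ, 2 ≤ n → ∀ a₀ ∈ Hyp20.Expanding n,
      Hyp20.IsDomainOfHolomorphy (connectedComponentIn (Hyp20.Expanding n) a₀) ∧
        HypRat.PullbackHyperconvex Set.univ (connectedComponentIn (Hyp20.Expanding n) a₀)) ∧
      ∀ d : ℕ, 2 ≤ d → ∀ b₀ ∈ HypRat.ExpandingRat d,
        Hyp20.IsDomainOfHolomorphy (connectedComponentIn (HypRat.ExpandingRat d) b₀) ∧
          HypRat.IsSteinQuotient (connectedComponentIn (HypRat.ExpandingRat d) b₀) ∧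
            HypRat.PullbackHyperconvex {b | HypRat.Nondeg d b}
              (connectedComponentIn (HypRat.ExpandingRat d) b₀) :=
  ⟨fun _ hn a₀ _ => ⟨Hyp20.isDomainOfHolomorphy_component hn a₀,
      HypRat.pullbackHyperconvex_poly hn a₀⟩,
    fun _ hd b₀ hb₀ => ⟨(HypRat.theoremC hd hb₀).1, (HypRat.theoremC hd hb₀).2,
      HypRat.pullbackHyperconvex_rat hd b₀⟩⟩

end Pool.Agent.Results.MP_47150b_an.LocallyHyperconvex
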