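import Pool.Agent.Lib.Hyp.Final20

set_option autoImplicit false

namespace Pool.Agent.Results.MP_47150b_an.PolynomialConvexity

/-- For every `n ≥ 2` the set of monic centred polynomials of degree `n` all of whose critical
points tend to finite attracting cycles is polynomially convex in `ℂ ^ (n - 1)`, and for every
compact subset `K` of `B(z ^ n)`, or of a connected component `Ω` of the expanding set that
contains such a polynomial, the polynomial hull of `K` meets `B(z ^ n)`, respectively `Ω`, in a
compact set. -/
theorem result (n : ℕ) (hn : 2 ≤ n) :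
    (∀ K : Set (Fin (n - 1) → ℂ), IsCompact K → K ⊆ Hyp20.ExpandingBdd n →
        IsCompact (Hyp20.polyHull K) ∧ Hyp20.polyHull K ⊆ Hyp20.ExpandingBdd n) ∧
      (∀ K : Set (Fin (n - 1) → ℂ), IsCompact K → K ⊆ Hyp95.BLit n →
        IsCompact (Hyp20.polyHull K ∩ Hyp95.BLit n)) ∧
      ∀ a₀ ∈ Hyp20.ExpandingBdd n, ∀ K : Set (Fin (n - 1) → ℂ), IsCompact K →
        K ⊆ connectedComponentIn (Hyp20.Expanding n) a₀ →
          IsCompact (Hyp20.polyHull K ∩ connectedComponentIn (Hyp20.Expanding n) a₀) :=
  Hyp20.final_convex n hn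

end Pool.Agent.Results.MP_47150b_an.PolynomialConvexity
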