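import Pool.Agent.Lib.Hyp.FinalQ2_95
import Pool.Agent.Lib.Hyp.Rat.HullC95

set_option autoImplicit false

namespace Pool.Agent.Results.MP_47150b_an.RationalConvexity

/-- The expanding locus in the space of monic centred polynomials of degree `n` and the expanding
locus in `Rat_d` are rationally convex: a point which is not expanding is separated from every
compact set of expanding maps by an algebraic hypersurface (of `ℂ ^ (n - 1)`, respectively of
`P ^ (2 d + 1)`), and each component meets the hull of each of its compact subsets in a compact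
set. -/
theorem result :
    (∀ n : ℕ, 2 ≤ n →
      (∀ K : Set (Fin (n - 1) → ℂ), IsCompact K → K ⊆ Hyp20.Expanding n →
        ∀ a, a ∉ Hyp20.Expanding n → ∃ P : MvPolynomial (Fin (n - 1)) ℂ,
          MvPolynomial.eval a P = 0 ∧ ∀ x ∈ K, MvPolynomial.eval x P ≠ 0) ∧
      ∀ a₀, ∀ K : Set (Fin (n - 1) → ℂ), IsCompact K →
        K ⊆ connectedComponentIn (Hyp20.Expanding n) a₀ →
          IsCompact (Hyp95.ratHull K ∩ connectedComponentIn (Hyp20.Expanding n) a₀)) ∧
    ∀ d : ℕ, 2 ≤ d →
      (∀ K : Set (HypRat.Par d), IsCompact K → K ⊆ HypRat.ExpandingRat d →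
        ∀ b : HypRat.Par d, b ≠ 0 → b ∉ HypRat.ExpandingRat d →
          ∃ (k : ℕ) (P : MvPolynomial (Fin ((d + 1) + (d + 1))) ℂ), P.IsHomogeneous k ∧
            MvPolynomial.eval b P = 0 ∧ ∀ x ∈ K, MvPolynomial.eval x P ≠ 0) ∧
      ∀ b₀, ∀ K : Set (HypRat.Par d), IsCompact K →
        K ⊆ connectedComponentIn (HypRat.ExpandingRat d) b₀ →
          IsCompact (HypRat.projHull K ∩ connectedComponentIn (HypRat.ExpandingRat d) b₀ ∩
            Metric.sphere 0 1) := by
  refine ⟨fun n hn => ⟨fun K hK hKE a ha => Hyp95.exists_hypersurface hn hK hKE ha,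
    fun a₀ K hK hKΩ => ((Hyp95.component_pol hn a₀).2 K hK hKΩ).2⟩,
    fun d hd => ⟨fun K hK hKE b hb0 hb => HypRat.exists_hypersurface_rat hd hK hKE hb0 hb,
      fun b₀ K hK hKΩ => (HypRat.isCompact_projHull_inter hd b₀ hK hKΩ).2⟩⟩

end Pool.Agent.Results.MP_47150b_an.RationalConvexity
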