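import Pool.Agent.Lib.Hyp.Final20

set_option autoImplicit false

namespace Pool.Agent.Results.MP_47150b_an.UniformLimit

/-- For every `n ≥ 2` the set `B(z ^ n)` of monic centred polynomials of degree `n` having an
attracting fixed point whose immediate basin contains every critical point is open, and some
uniform limit, on its closure, of polynomials in the coefficients is holomorphic on `B(z ^ n)` and
extends holomorphically across no boundary point. The same holds for every connected component of
the set of expanding polynomials which contains a map whose critical points all tend to finite
attracting cycles. -/
theorem result (n : ℕ) (hn : 2 ≤ n) :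
    Hyp20.UniformExistence (Hyp95.BLit n) ∧
      ∀ a₀ ∈ Hyp20.ExpandingBdd n,
        Hyp20.UniformExistence (connectedComponentIn (Hyp20.Expanding n) a₀) :=
  Hyp20.final_uniform n hn

end Pool.Agent.Results.MP_47150b_an.UniformLimit
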